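import Mathlib
import Pool.Agent.Y16.AF.StmA

/-!
# Project AF: the determinant of a translation invariant matrix
-/

set_option autoImplicit false

open Matrix Finset
open scoped Kronecker

namespace Pool.Agent.Y100.AF

open Pool.Agent.Y16.AF

/-- the characters of the torus -/
noncomputable def chi {L : ℕ} [NeZero L] (k x : Fin 3 → ZMod L) : ℂ :=
  ∏ j, ZMod.stdAddChar (k j * x j)

theorem chi_mul {L : ℕ} [NeZero L] (k x y : Fin 3 → ZMod L) :
    chi k x * chi k (-y) = ∏ j, ZMod.stdAddChar (k j * (x j - y j)) := by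
  unfold chi
  rw [← Finset.prod_mul_distrib]
  refine Finset.prod_congr rfl fun j _ => ?_
  rw [← AddChar.map_add_eq_mul]
  congr 1
  simp only [Pi.neg_apply]
  ring

theorem zk_pow {L : ℕ} [NeZero L] (k x y : Fin 3 → ZMod L) :
    (∏ j, zk k j ^ (x j - y j).val) = chi k x * chi k (-y) := by
  rw [chi_mul]
  refine Finset.prod_congr rfl fun j _ => ?_
  unfold zk
  rw [← AddChar.map_nsmul_eq_pow]
  congr 1
  rw [nsmul_eq_mul, ZMod.natCast_zmod_val, mul_comm]

theorem orth {L : ℕ} [NeZero L] (x y : Fin 3 → ZMod L) :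
    ∑ k : Fin 3 → ZMod L, chi k x * chi k (-y) = if x = y then (L : ℂ) ^ 3 else 0 := by
  simp only [chi_mul]
  have h := Finset.prod_univ_sum (fun _ : Fin 3 => (Finset.univ : Finset (ZMod L)))
    (fun (j : Fin 3) (m : ZMod L) => (ZMod.stdAddChar (m * (x j - y j)) : ℂ))
  rw [Fintype.piFinset_univ] at h
  rw [← h]
  have h2 : ∀ j : Fin 3, ∑ m : ZMod L, (ZMod.stdAddChar (m * (x j - y j)) : ℂ) =
      if x j = y j then (L : ℂ) else 0 := by
    intro j
    rw [AddChar.sum_mulShift (x j - y j) (ZMod.isPrimitive_stdAddChar L), ZMod.card]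
    by_cases hj : x j = y j
    · simp [hj]
    · rw [if_neg (sub_ne_zero.2 hj), if_neg hj]
      simp
  simp only [h2]
  by_cases hxy : x = y
  · simp [hxy]
  · rw [if_neg hxy]
    obtain ⟨j, hj⟩ := Function.ne_iff.1 hxy
    exact Finset.prod_eq_zero (Finset.mem_univ j) (if_neg hj)

theorem af_four : S_FOUR := by
  intro L _ J _ _ σ
  have hL : (L : ℂ) ≠ 0 := by exact_mod_cast NeZero.ne L
  let U : Matrix (Fin 3 → ZMod L) (Fin 3 → ZMod L) ℂ := Matrix.of fun x k => chi k x
  let U' : Matrix (Fin 3 → ZMod L) (Fin 3 → ZMod L) ℂ :=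
    Matrix.of fun k y => (1 / (L : ℂ) ^ 3) * chi k (-y)
  have hUU : U * U' = 1 := by
    ext x y
    rw [Matrix.mul_apply, Matrix.one_apply]
    have h1 : ∀ k, U x k * U' k y = (1 / (L : ℂ) ^ 3) * (chi k x * chi k (-y)) := by
      intro k
      show chi k x * ((1 / (L : ℂ) ^ 3) * chi k (-y)) = _
      ring
    rw [Finset.sum_congr rfl fun k _ => h1 k, ← Finset.mul_sum, orth]
    split_ifs with h
    · field_simp
    · rw [mul_zero]
  have hdet : U.det * U'.det = 1 := by rw [← Matrix.det_mul, hUU, Matrix.det_one]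
  rw [← Matrix.det_submatrix_equiv_self (Equiv.prodComm J (Sp L))]
  have hM : ((Matrix.of fun (p q : Sp L × J) => (1 / (L : ℂ) ^ 3) *
      ∑ k : Sp L, (∏ j, zk k j ^ (p.1 j - q.1 j).val) * σ k p.2 q.2).submatrix
        (Equiv.prodComm J (Sp L)) (Equiv.prodComm J (Sp L))) =
      ((1 : Matrix J J ℂ) ⊗ₖ U) * Matrix.blockDiagonal σ * ((1 : Matrix J J ℂ) ⊗ₖ U') := by
    ext ⟨a, x⟩ ⟨b, y⟩
    rw [Matrix.mul_apply]
    simp only [Matrix.mul_apply, Fintype.sum_prod_type, Matrix.kroneckerMap_apply,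
      Matrix.one_apply, Matrix.blockDiagonal_apply, Matrix.submatrix_apply, Matrix.of_apply,
      Equiv.prodComm_apply, Prod.swap]
    simp only [ite_mul, one_mul, zero_mul, mul_ite, mul_zero, Finset.sum_ite_eq,
      Finset.sum_ite_eq', Finset.mem_univ, if_true]
    rw [Finset.mul_sum]
    simp only [zk_pow]
    conv_rhs => rw [Finset.sum_comm]
    refine Finset.sum_congr rfl fun k _ => ?_
    rw [Finset.sum_ite_eq' Finset.univ b, if_pos (Finset.mem_univ b)]
    show _ = chi k x * σ k a b * ((1 / (L : ℂ) ^ 3) * chi k (-y))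
    ring
  rw [hM, Matrix.det_mul, Matrix.det_mul, Matrix.det_kronecker, Matrix.det_kronecker,
    Matrix.det_one, one_pow, one_mul, one_mul, Matrix.det_blockDiagonal]
  calc U.det ^ Fintype.card J * (∏ k, (σ k).det) * U'.det ^ Fintype.card J
      = (U.det * U'.det) ^ Fintype.card J * ∏ k, (σ k).det := by rw [mul_pow]; ring
    _ = _ := by rw [hdet, one_pow, one_mul]

end Pool.Agent.Y100.AF
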